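import Mathlib
import Pool.Agent.Helper82.OS.Defs
import Pool.Agent.Helper82.OS.PPd
import Pool.Agent.Helper82.OS.voldens
import Pool.Agent.Helper82.OS.vol_le
import Pool.Agent.Helper82.OS.sgval
import Pool.Agent.Helper82.OS.haus_sg
import Pool.Agent.Helper82.OS.HausFin
import Pool.Agent.Helper971.OS.R_value
import Pool.Agent.H248.UB.Approx

/-!
# From the lower bound on the sphere to the frozen statement S14115 (project N4)
-/

set_option autoImplicit false
open MeasureTheory Metric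
open scoped ENNReal
open Pool.Agent.Helper82.OS

namespace Pool.Agent.W721.N4

theorem sg_ne_zero (m : ℕ) : sg (2 * m + 2) Set.univ ≠ 0 := by
  rw [sgval (by omega : 1 ≤ 2 * m + 2), ne_eq, ENNReal.ofReal_eq_zero, not_le]
  have hG : 0 < Real.Gamma (((2 * m + 2 : ℕ) : ℝ) / 2) := Real.Gamma_pos_of_pos (by positivity)
  positivity

theorem sg_ne_top (m : ℕ) : sg (2 * m + 2) Set.univ ≠ ⊤ := by
  have hfin : IsFiniteMeasure (sg (2 * m + 2)) := inferInstance
  exact measure_ne_top _ _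

/-- the factor between the Hausdorff measure and the surface measure -/
noncomputable def cf (m : ℕ) : ℝ≥0∞ :=
  (Measure.hausdorffMeasure ((2 * m + 1 : ℕ) : ℝ) : Measure (E (2 * m + 2))) (sphere 0 1) /
    sg (2 * m + 2) Set.univ

theorem cf_ne_top (m : ℕ) : cf m ≠ ⊤ :=
  ENNReal.div_ne_top (B08_sphere_finite (2 * m + 1)) (sg_ne_zero m)

theorem meas_eq (m : ℕ) :
    (Measure.hausdorffMeasure ((2 * m + 1 : ℕ) : ℝ) : Measure (E (2 * m + 2))).restrict
      (sphere 0 1) =
    cf m • (sg (2 * m + 2)).map (fun f : sphere (0 : E (2 * m + 2)) 1 => (f : E (2 * m + 2))) := by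
  ext A hA
  rw [Measure.restrict_apply hA, Measure.smul_apply, Measure.map_apply measurable_subtype_coe hA,
    smul_eq_mul]
  have h := haus_sg_set_haus_sgx (k := 2 * m + 1) A hA
  unfold cf
  rw [← ENNReal.mul_div_right_comm, ENNReal.eq_div_iff (sg_ne_zero m) (sg_ne_top m)]
  exact h

theorem int_eq (m : ℕ) (g : E (2 * m + 2) → ℝ) :
    ∫ x in sphere (0 : E (2 * m + 2)) 1, g x
      ∂(Measure.hausdorffMeasure ((2 * m + 1 : ℕ) : ℝ)) =
    (cf m).toReal * ∫ f : sphere (0 : E (2 * m + 2)) 1, g f ∂(sg (2 * m + 2)) := by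
  have h1 := congrArg (fun ν : Measure (E (2 * m + 2)) => ∫ x, g x ∂ν) (meas_eq m)
  beta_reduce at h1
  rw [h1, integral_smul_measure,
    MeasurableEmbedding.integral_map (MeasurableEmbedding.subtype_coe isClosed_sphere.measurableSet),
    smul_eq_mul]

/-- The value `16^m / binom(4m,2m) * area` as a real number. -/
noncomputable def Lv (m : ℕ) : ℝ :=
  (ENNReal.ofReal ((16 : ℝ) ^ m / ((4 * m).choose (2 * m) : ℝ)) * sg (2 * m + 2) Set.univ).toReal

theorem Lv_ne_top (m : ℕ) : ENNReal.ofReal ((16 : ℝ) ^ m / ((4 * m).choose (2 * m) : ℝ)) *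
    sg (2 * m + 2) Set.univ ≠ ⊤ := ENNReal.mul_ne_top ENNReal.ofReal_ne_top (sg_ne_top m)

theorem dens_nonneg {D : ℕ} (V : E D → E D) (x : E D) : 0 ≤ dens V x := Real.sqrt_nonneg _

theorem int_PP {m : ℕ} (hm : 1 ≤ m) (a v : E (2 * m + 2)) (ha : ‖a‖ = 1) (hv : ‖v‖ = 1)
    (hav : inner ℝ a v = 0) :
    ∫ f : sphere (0 : E (2 * m + 2)) 1, dens (PP a v) f ∂(sg (2 * m + 2)) = Lv m := by
  obtain ⟨h1, h2⟩ := osr_value hm a v ha hv hav
  rw [integral_eq_lintegral_of_nonneg_ae (Filter.Eventually.of_forall fun x => dens_nonneg _ _) h2,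
    h1]
  rfl

theorem int_UT {m : ℕ} {V : E (2 * m + 2) → E (2 * m + 2)} (hV : UT V) :
    ENNReal.ofReal (∫ f : sphere (0 : E (2 * m + 2)) 1, dens V f ∂(sg (2 * m + 2))) =
      ∫⁻ f : sphere (0 : E (2 * m + 2)) 1, ENNReal.ofReal (dens V (f : E (2 * m + 2)))
        ∂(sg (2 * m + 2)) := by
  have hcont : Continuous (dens V) := vol_le_dens_cont_vol_lex V hV.sm
  have hcont' : Continuous (fun x : sphere (0 : E (2 * m + 2)) 1 => dens V (x : E (2 * m + 2))) :=
    hcont.comp continuous_subtype_val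
  obtain ⟨C, hC⟩ := (isCompact_univ (X := sphere (0 : E (2 * m + 2)) 1)).exists_bound_of_continuousOn
    hcont'.continuousOn
  have hfin : IsFiniteMeasure (sg (2 * m + 2)) := inferInstance
  have hint : Integrable (fun x : sphere (0 : E (2 * m + 2)) 1 => dens V (x : E (2 * m + 2)))
      (sg (2 * m + 2)) :=
    Integrable.of_bound hcont'.aestronglyMeasurable C
      (Filter.Eventually.of_forall fun x => hC x (Set.mem_univ x))
  exact ofReal_integral_eq_lintegral_ofReal hint (Filter.Eventually.of_forall fun x => dens_nonneg _ _)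

theorem HAUS (h : ∀ m : ℕ, 1 < m → ∀ V : E (2 * m + 2) → E (2 * m + 2), UT V →
    ENNReal.ofReal ((16 : ℝ) ^ m / ((4 * m).choose (2 * m) : ℝ)) * sg (2 * m + 2) Set.univ ≤
      ∫⁻ x : Metric.sphere (0 : E (2 * m + 2)) 1,
        ENNReal.ofReal (dens V (x : E (2 * m + 2))) ∂(sg (2 * m + 2))) :
    ∀ m : ℕ, 1 < m →
    ∀ vol : (EuclideanSpace ℝ (Fin (2 * m + 2)) → EuclideanSpace ℝ (Fin (2 * m + 2))) → ℝ,
    (∀ W : EuclideanSpace ℝ (Fin (2 * m + 2)) → EuclideanSpace ℝ (Fin (2 * m + 2)),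
      vol W = ∫ x in Metric.sphere (0 : EuclideanSpace ℝ (Fin (2 * m + 2))) 1,
        Real.sqrt (LinearMap.det
          (((1 : EuclideanSpace ℝ (Fin (2 * m + 2)) →L[ℝ] EuclideanSpace ℝ (Fin (2 * m + 2)))
            + ContinuousLinearMap.adjoint
                ((ContinuousLinearMap.id ℝ (EuclideanSpace ℝ (Fin (2 * m + 2)))
                    - (innerSL ℝ x).smulRight x) * fderiv ℝ W x
                  * (ContinuousLinearMap.id ℝ (EuclideanSpace ℝ (Fin (2 * m + 2)))
                    - (innerSL ℝ x).smulRight x))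
              * ((ContinuousLinearMap.id ℝ (EuclideanSpace ℝ (Fin (2 * m + 2)))
                    - (innerSL ℝ x).smulRight x) * fderiv ℝ W x
                  * (ContinuousLinearMap.id ℝ (EuclideanSpace ℝ (Fin (2 * m + 2)))
                    - (innerSL ℝ x).smulRight x))).toLinearMap))
        ∂(MeasureTheory.Measure.hausdorffMeasure ((2 * m + 1 : ℕ) : ℝ))) →
    ∀ a v : EuclideanSpace ℝ (Fin (2 * m + 2)), ‖a‖ = 1 → ‖v‖ = 1 → inner ℝ a v = 0 →
      (∀ V : EuclideanSpace ℝ (Fin (2 * m + 2)) → EuclideanSpace ℝ (Fin (2 * m + 2)),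
          ContDiff ℝ (⊤ : ℕ∞) V →
          (∀ x ∈ Metric.sphere (0 : EuclideanSpace ℝ (Fin (2 * m + 2))) 1,
              inner ℝ x (V x) = 0 ∧ ‖V x‖ = 1) →
          vol (fun y => v - (inner ℝ v y / (1 + inner ℝ y a)) • (y + a)) ≤ vol V) ∧
      (∀ ε : ℝ, 0 < ε →
        ∃ V : EuclideanSpace ℝ (Fin (2 * m + 2)) → EuclideanSpace ℝ (Fin (2 * m + 2)),
          ContDiff ℝ (⊤ : ℕ∞) V ∧
          (∀ x ∈ Metric.sphere (0 : EuclideanSpace ℝ (Fin (2 * m + 2))) 1,
              inner ℝ x (V x) = 0 ∧ ‖V x‖ = 1) ∧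
          vol V < vol (fun y => v - (inner ℝ v y / (1 + inner ℝ y a)) • (y + a)) + ε) := by
  intro m hm vol hvol a v ha hv hav
  have hvol' : ∀ W : E (2 * m + 2) → E (2 * m + 2), vol W =
      (cf m).toReal * ∫ f : sphere (0 : E (2 * m + 2)) 1, dens W f ∂(sg (2 * m + 2)) := by
    intro W
    rw [hvol W, ← int_eq]
    exact integral_congr_ae (Filter.Eventually.of_forall fun x => voldens W x)
  have hc : 0 ≤ (cf m).toReal := ENNReal.toReal_nonneg
  have hP : vol (fun y => v - (inner ℝ v y / (1 + inner ℝ y a)) • (y + a)) =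
      (cf m).toReal * Lv m := by
    rw [hvol', ← int_PP (by omega : 1 ≤ m) a v ha hv hav]
    rfl
  constructor
  · intro V hV1 hV2
    have hUT : UT V := ⟨hV1, fun x hx => (hV2 x (mem_sphere_zero_iff_norm.2 hx)).1,
      fun x hx => (hV2 x (mem_sphere_zero_iff_norm.2 hx)).2⟩
    rw [hP, hvol']
    refine mul_le_mul_of_nonneg_left ?_ hc
    have h1 := h m hm V hUT
    rw [← int_UT hUT] at h1
    have h2 := (ENNReal.toReal_le_toReal (Lv_ne_top m) ENNReal.ofReal_ne_top).2 h1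
    rw [ENNReal.toReal_ofReal (integral_nonneg fun x => dens_nonneg _ _)] at h2
    exact h2
  · intro ε hε
    have hη : 0 < ε / ((cf m).toReal + 1) := by positivity
    obtain ⟨V, hV, hVb⟩ := Pool.Agent.H248.UB.approx (by omega : 1 ≤ m) _ hη
    refine ⟨V, hV.sm, fun x hx => ⟨hV.tan x (mem_sphere_zero_iff_norm.1 hx),
      hV.unit x (mem_sphere_zero_iff_norm.1 hx)⟩, ?_⟩
    have ha' : ‖(EuclideanSpace.single 0 1 : E (2 * m + 2))‖ = 1 := by simp
    have hb' : ‖(EuclideanSpace.single 1 1 : E (2 * m + 2))‖ = 1 := by simp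
    have hab' : inner ℝ (EuclideanSpace.single 0 1 : E (2 * m + 2))
        (EuclideanSpace.single 1 1 : E (2 * m + 2)) = 0 := by
      rw [EuclideanSpace.inner_single_left]
      simp
    obtain ⟨h1, -⟩ := osr_value (by omega : 1 ≤ m) (EuclideanSpace.single 0 1)
      (EuclideanSpace.single 1 1) ha' hb' hab'
    rw [h1, ← int_UT hV, ← ENNReal.ofReal_toReal (Lv_ne_top m),
      ← ENNReal.ofReal_add ENNReal.toReal_nonneg hη.le] at hVb
    have h3 : ∫ f : sphere (0 : E (2 * m + 2)) 1, dens V f ∂(sg (2 * m + 2)) ≤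
        Lv m + ε / ((cf m).toReal + 1) :=
      (ENNReal.ofReal_le_ofReal_iff (add_nonneg ENNReal.toReal_nonneg hη.le)).1 hVb
    rw [hP, hvol']
    calc (cf m).toReal * ∫ f : sphere (0 : E (2 * m + 2)) 1, dens V f ∂(sg (2 * m + 2))
        ≤ (cf m).toReal * (Lv m + ε / ((cf m).toReal + 1)) := mul_le_mul_of_nonneg_left h3 hc
      _ = (cf m).toReal * Lv m + (cf m).toReal * (ε / ((cf m).toReal + 1)) := by ring
      _ < (cf m).toReal * Lv m + ε := by
        have : (cf m).toReal * (ε / ((cf m).toReal + 1)) < ε := by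
          rw [mul_div_assoc', div_lt_iff₀ (by positivity)]
          nlinarith
        linarith

end Pool.Agent.W721.N4
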